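import Mathlib
import Pool.Agent.J4H50.YJ.Stm

/-! # Project YJ (helper50): piece G. The singular points of the tangent cone of a superisolated
singularity are finite in number. -/

set_option autoImplicit false

namespace Pool.Agent.J4H60.YJ

open MvPolynomial
open Pool.Agent.J4H50.YJ
open Pool.Agent.W428.MOT (Pt)

lemma eval_hom {V : Type} [Fintype V] {f : MvPolynomial V ℂ} {n : ℕ} (hf : f.IsHomogeneous n) (s : ℂ)
    (x : V → ℂ) : eval (fun i => s * x i) f = s ^ n * eval x f := by
  rw [eval_eq', eval_eq', Finset.mul_sum]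
  refine Finset.sum_congr rfl fun d hd => ?_
  have h1 : ∑ i, d i = n := by
    have h := hf (mem_support_iff.mp hd)
    rw [Finsupp.weight_apply, Finsupp.sum_fintype _ _ (by simp)] at h
    simpa using h
  simp only [mul_pow, Finset.prod_mul_distrib, Finset.prod_pow_eq_pow_sum, h1]
  ring

section

variable {V : Type} [Fintype V] (H H' : MvPolynomial V ℂ) (d e : ℕ)

/-- the common zeros of the derivatives -/
def Cz (H : MvPolynomial V ℂ) : Set (V → ℂ) := {x | ∀ l, eval x (pderiv l H) = 0}

lemma cz_smul {H : MvPolynomial V ℂ} {d : ℕ} (hH : H.IsHomogeneous d) {x : V → ℂ} (hx : x ∈ Cz H)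
    (s : ℂ) : (fun i => s * x i) ∈ Cz H := by
  intro l
  rw [eval_hom (hH.pderiv) s x, hx l, mul_zero]

/-- Nullstellensatz -/
lemma null {H H' : MvPolynomial V ℂ}
    (h : ∀ x : V → ℂ, x ≠ 0 → (∀ l, eval x (pderiv l H) = 0) → eval x H' ≠ 0) (i : V) :
    ∃ (N : ℕ) (b : MvPolynomial V ℂ), 1 ≤ N ∧ ∀ x ∈ Cz H, x i ^ N = eval x b * eval x H' := by
  classical
  set I : Ideal (MvPolynomial V ℂ) := Ideal.span (insert H' (Set.range fun l => pderiv l H)) with hI
  have h1 : (X i : MvPolynomial V ℂ) ∈ I.radical := by
    rw [← vanishingIdeal_zeroLocus_eq_radical (K := ℂ), mem_vanishingIdeal_iff]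
    intro x hx
    rw [mem_zeroLocus_iff] at hx
    have h2 : x = 0 := by
      by_contra h3
      refine h x h3 (fun l => ?_) ?_
      · have := hx (pderiv l H) (Ideal.subset_span (Set.mem_insert_of_mem _ ⟨l, rfl⟩))
        simpa [aeval_def, eval, eval₂_eq] using this
      · have := hx H' (Ideal.subset_span (Set.mem_insert _ _))
        simpa [aeval_def, eval, eval₂_eq] using this
    rw [h2]
    simp
  obtain ⟨n, hn⟩ := h1
  have hn' : (X i : MvPolynomial V ℂ) ^ (n + 1) ∈ I := by
    rw [pow_succ]
    exact I.mul_mem_right _ hn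
  rw [hI, Ideal.mem_span_insert'] at hn'
  obtain ⟨a, ha⟩ := hn'
  refine ⟨n + 1, -a, by omega, fun x hx => ?_⟩
  have h4 : ∀ p ∈ Ideal.span (Set.range fun l => pderiv l H), eval x p = 0 := by
    intro p hp
    have h5 : Ideal.span (Set.range fun l => pderiv l H) ≤ RingHom.ker (eval x) := by
      rw [Ideal.span_le]
      rintro _ ⟨l, rfl⟩
      exact hx l
    exact h5 hp
  have h6 := h4 _ ha
  rw [map_add, map_mul, map_pow, eval_X] at h6
  rw [map_neg]
  linear_combination h6

/-- the homogeneous part of the right degree -/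
lemma null2 {H H' : MvPolynomial V ℂ} {d e : ℕ} (he : 1 ≤ e) (hH : H.IsHomogeneous d)
    (hH' : H'.IsHomogeneous e)
    (h : ∀ x : V → ℂ, x ≠ 0 → (∀ l, eval x (pderiv l H) = 0) → eval x H' ≠ 0) (i : V) :
    ∃ (N : ℕ) (c : MvPolynomial V ℂ), 1 ≤ N ∧ c.totalDegree < N ∧
      ∀ x ∈ Cz H, x i ^ N = eval x c * eval x H' := by
  obtain ⟨N, b, hN, hb⟩ := null h i
  refine ⟨N, if e ≤ N then homogeneousComponent (N - e) b else 0, hN, ?_, fun x hx => ?_⟩
  · split_ifs with h1
    · refine lt_of_le_of_lt (homogeneousComponent_isHomogeneous (N - e) b).totalDegree_le ?_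
      omega
    · rw [totalDegree_zero]
      omega
  · set P : Polynomial ℂ := Polynomial.C (x i ^ N) * Polynomial.X ^ N -
      ∑ k ∈ Finset.range (b.totalDegree + 1),
        Polynomial.C (eval x (homogeneousComponent k b) * eval x H') * Polynomial.X ^ (k + e) with hP
    have hP0 : P = 0 := by
      refine Polynomial.funext fun s => ?_
      have h1 := hb _ (cz_smul hH hx s)
      rw [eval_hom hH' s x] at h1
      have h2 : eval (fun i => s * x i) b = ∑ k ∈ Finset.range (b.totalDegree + 1),
          s ^ k * eval x (homogeneousComponent k b) := by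
        conv_lhs => rw [← sum_homogeneousComponent b]
        rw [map_sum]
        exact Finset.sum_congr rfl fun k _ => eval_hom (homogeneousComponent_isHomogeneous k b) s x
      rw [h2, mul_pow] at h1
      rw [hP]
      simp only [Polynomial.eval_sub, Polynomial.eval_mul, Polynomial.eval_C, Polynomial.eval_pow,
        Polynomial.eval_X, Polynomial.eval_finsetSum, Polynomial.eval_zero]
      rw [mul_comm, h1, Finset.sum_mul, ← Finset.sum_sub_distrib]
      refine Finset.sum_eq_zero fun k _ => ?_
      rw [pow_add]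
      ring
    have h3 := congrArg (fun Q => Polynomial.coeff Q N) hP0
    rw [hP] at h3
    simp only [Polynomial.coeff_sub, Polynomial.coeff_C_mul, Polynomial.coeff_X_pow,
      Polynomial.finsetSum_coeff, Polynomial.coeff_zero, if_true, mul_one, mul_ite, mul_zero] at h3
    rw [sub_eq_zero] at h3
    rw [h3]
    split_ifs with h1
    · rw [Finset.sum_eq_single (N - e)]
      · rw [if_pos (by omega)]
      · intro k _ hk
        rw [if_neg (by omega)]
      · intro hk
        rw [if_pos (by omega)]
        have : homogeneousComponent (N - e) b = 0 := by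
          apply homogeneousComponent_eq_zero
          rw [Finset.mem_range] at hk
          omega
        rw [this, map_zero, zero_mul]
    · rw [map_zero, zero_mul]
      refine Finset.sum_eq_zero fun k _ => ?_
      rw [if_neg (by omega)]

/-- the points which represent the singular points -/
def Tz (H H' : MvPolynomial V ℂ) : Set (V → ℂ) := {x | x ∈ Cz H ∧ eval x H' = 1}

theorem tz_finite {H H' : MvPolynomial V ℂ} {d e : ℕ} (he : 1 ≤ e) (hH : H.IsHomogeneous d)
    (hH' : H'.IsHomogeneous e)
    (h : ∀ x : V → ℂ, x ≠ 0 → (∀ l, eval x (pderiv l H) = 0) → eval x H' ≠ 0) :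
    (Tz H H').Finite := by
  classical
  choose N c hN hc hx using fun i => null2 he hH hH' h i
  -- the restriction to `Tz`
  set ρ : MvPolynomial V ℂ →ₐ[ℂ] (Tz H H' → ℂ) := aeval (fun i => fun x : Tz H H' => x.1 i) with hρ
  have hρe : ∀ (p : MvPolynomial V ℂ) (x : Tz H H'), ρ p x = eval x.1 p := by
    intro p x
    have h1 : (Pi.evalAlgHom ℂ (fun _ : Tz H H' => ℂ) x).comp ρ = aeval x.1 := by
      refine algHom_ext fun i => ?_
      simp [hρ]
    have h2 := DFunLike.congr_fun h1 p
    simpa [aeval_def, eval, eval₂_eq] using h2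
  set B : Finset (V →₀ ℕ) := (Finset.Iic (Finsupp.equivFunOnFinite.symm N)) with hB
  set S : Submodule ℂ (Tz H H' → ℂ) :=
    Submodule.span ℂ ((fun m : V →₀ ℕ => ρ (monomial m 1)) '' (B : Set (V →₀ ℕ))) with hS
  have key : ∀ n : ℕ, ∀ p : MvPolynomial V ℂ, p.totalDegree < n → ρ p ∈ S := by
    intro n
    induction n with
    | zero => intro p hp; omega
    | succ n ih =>
      intro p hp
      rw [p.as_sum, map_sum]
      refine Submodule.sum_mem _ fun m hm => ?_
      have h1 : monomial m (coeff m p) = coeff m p • (monomial m (1 : ℂ)) := by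
        rw [smul_monomial, smul_eq_mul, mul_one]
      rw [h1, map_smul]
      refine Submodule.smul_mem _ _ ?_
      by_cases hmB : m ∈ B
      · exact Submodule.subset_span ⟨m, hmB, rfl⟩
      · have h2 : ∃ i, N i ≤ m i := by
          by_contra h3
          push Not at h3
          apply hmB
          rw [hB, Finset.mem_Iic]
          intro i
          exact (h3 i).le
        obtain ⟨i, hi⟩ := h2
        set m' : V →₀ ℕ := m - Finsupp.single i (N i) with hm'
        have h3 : m = Finsupp.single i (N i) + m' := by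
          rw [hm', add_tsub_cancel_of_le]
          rw [Finsupp.single_le_iff]
          exact hi
        have h4 : ρ (monomial m 1) = ρ (c i * monomial m' 1) := by
          funext x
          rw [hρe, hρe, h3, ← mul_one (1 : ℂ), ← monomial_mul, mul_one, map_mul, map_mul]
          congr 1
          have h5 := hx i x.1 x.2.1
          rw [x.2.2, mul_one] at h5
          rw [← h5, ← X_pow_eq_monomial, map_pow, eval_X]
        rw [h4]
        apply ih
        have h6 : m.degree ≤ p.totalDegree := by
          have := le_totalDegree hm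
          rw [Finsupp.degree]
          exact this
        have h7 : m.degree = N i + m'.degree := by
          conv_lhs => rw [h3]
          rw [map_add, Finsupp.degree_single]
        have h8 : (monomial m' (1 : ℂ)).totalDegree = m'.degree := by
          rw [totalDegree_monomial _ one_ne_zero]
          rfl
        have h9 := totalDegree_mul (c i) (monomial m' (1 : ℂ))
        have h10 := hc i
        omega
  have hfg : (Subalgebra.toSubmodule ρ.range).FG := by
    have h1 : Subalgebra.toSubmodule ρ.range = S := by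
      apply le_antisymm
      · rintro _ ⟨p, rfl⟩
        exact key (p.totalDegree + 1) p (by omega)
      · rw [hS, Submodule.span_le]
        rintro _ ⟨m, -, rfl⟩
        exact ⟨monomial m 1, rfl⟩
    rw [h1, hS]
    exact Submodule.fg_span (B.finite_toSet.image _)
  have hint : ∀ i, IsIntegral ℂ (ρ (X i)) := fun i =>
    IsIntegral.of_mem_of_fg ρ.range hfg _ ⟨X i, rfl⟩
  choose q hq1 hq2 using hint
  refine (Set.Finite.pi' (fun i => (q i).roots.toFinset.finite_toSet)).subset fun x hxT => ?_
  rw [Set.mem_ofPred_eq]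
  intro i
  rw [Finset.mem_coe, Multiset.mem_toFinset, Polynomial.mem_roots (hq1 i).ne_zero]
  have h1 := congrFun (hq2 i) ⟨x, hxT⟩
  have h2 : Polynomial.eval₂ (algebraMap ℂ (Tz H H' → ℂ)) (ρ (X i)) (q i) ⟨x, hxT⟩ =
      (q i).eval (x i) := by
    have h3 := Polynomial.hom_eval₂ (q i) (algebraMap ℂ (Tz H H' → ℂ))
      (Pi.evalRingHom (fun _ : Tz H H' => ℂ) ⟨x, hxT⟩) (ρ (X i))
    have h4 : (Pi.evalRingHom (fun _ : Tz H H' => ℂ) ⟨x, hxT⟩) (ρ (X i)) = x i := by
      change ρ (X i) ⟨x, hxT⟩ = x i
      rw [hρe, eval_X]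
    rw [h4] at h3
    exact h3
  rw [Polynomial.IsRoot.def, ← h2]
  exact h1

end

open Classical in
theorem t_G : S_G := by
  intro V _ H H' d e _ he hH hH' h
  cases nonempty_fintype V
  have hT := tz_finite he hH hH' h
  have hT0 : ∀ x ∈ Tz H H', x ≠ 0 := by
    rintro x hx rfl
    have h1 := hx.2
    have h2 := eval_hom hH' 0 (0 : V → ℂ)
    simp only [zero_mul] at h2
    rw [zero_pow (by omega), zero_mul] at h2
    change eval (fun _ => 0) H' = 1 at h1
    rw [h2] at h1
    exact zero_ne_one h1
  let s : Setoid (Tz H H') :=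
    { r := fun x y => ∃ c : ℂ, x.1 = c • y.1
      iseqv :=
        { refl := fun x => ⟨1, (one_smul _ _).symm⟩
          symm := by
            rintro x y ⟨c, hc⟩
            have hc0 : c ≠ 0 := by
              rintro rfl
              rw [zero_smul] at hc
              exact hT0 _ x.2 hc
            exact ⟨c⁻¹, by rw [hc, smul_smul, inv_mul_cancel₀ hc0, one_smul]⟩
          trans := by
            rintro x y z ⟨c, hc⟩ ⟨c', hc'⟩
            exact ⟨c * c', by rw [hc, hc', smul_smul]⟩ } }
  have : Finite (Tz H H') := hT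
  have hQ : Finite (Quotient s) := inferInstance
  obtain ⟨k, ⟨f⟩⟩ := Finite.exists_equiv_fin (Quotient s)
  refine ⟨k, fun r => (Quotient.out (f.symm r)).1, ?_, ?_, ?_, ?_⟩
  · intro r
    exact hT0 _ (Quotient.out (f.symm r)).2
  · intro r l
    exact (Quotient.out (f.symm r)).2.1 l
  · intro r t hrt c hc
    apply hrt
    have h1 : s.r (Quotient.out (f.symm r)) (Quotient.out (f.symm t)) := ⟨c, hc⟩
    have h2 : (Quotient.mk s (Quotient.out (f.symm r))) = Quotient.mk s (Quotient.out (f.symm t)) :=
      Quotient.sound h1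
    rw [Quotient.out_eq, Quotient.out_eq] at h2
    exact f.symm.injective h2
  · intro x hx hxl
    have hb := IsAlgClosed.algebraMap_bijective_of_isIntegral (k := ℂ) (K := AlgebraicClosure ℂ)
    choose y hy using fun i => hb.2 (x i)
    have hxy : x = gp y := by
      funext i
      exact (hy i).symm
    have hy0 : y ≠ 0 := by
      rintro rfl
      apply hx
      rw [hxy]
      funext i
      simp [gp]
    have hyl : ∀ l, eval y (pderiv l H) = 0 := by
      intro l
      have h1 := hxl l
      rw [hxy] at h1
      have h2 : aeval (gp y) (pderiv l H) = algebraMap ℂ (AlgebraicClosure ℂ) (eval y (pderiv l H)) := by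
        have h3 := aeval_algebraMap_apply (R := ℂ) (A := ℂ) (AlgebraicClosure ℂ) y (pderiv l H)
        exact h3
      rw [h2] at h1
      exact (map_eq_zero _).mp h1
    have hy1 := h y hy0 hyl
    obtain ⟨c, hc⟩ := IsAlgClosed.exists_pow_nat_eq ((eval y H')⁻¹) (show 0 < e by omega)
    have hc0 : c ≠ 0 := by
      rintro rfl
      rw [zero_pow (by omega)] at hc
      exact inv_ne_zero hy1 hc.symm
    have hz : (fun i => c * y i) ∈ Tz H H' := by
      refine ⟨cz_smul hH hyl c, ?_⟩
      rw [eval_hom hH' c y, hc, inv_mul_cancel₀ hy1]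
    set z : Tz H H' := ⟨_, hz⟩ with hzd
    have h5 : s.r (Quotient.out (Quotient.mk s z)) z := Quotient.exact (Quotient.out_eq _)
    have h6 := s.iseqv.symm h5
    obtain ⟨c', hc'⟩ := h6
    refine ⟨f (Quotient.mk s z), algebraMap ℂ (AlgebraicClosure ℂ) (c⁻¹ * c'), ?_⟩
    rw [hxy]
    funext i
    rw [f.symm_apply_apply]
    unfold gp
    rw [← map_mul]
    congr 1
    have h7 := congrFun hc' i
    simp only [hzd, Pi.smul_apply, smul_eq_mul] at h7
    rw [mul_assoc, ← h7, ← mul_assoc, inv_mul_cancel₀ hc0, one_mul]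

end Pool.Agent.J4H60.YJ
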